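import Mathlib
import Pool.Agent.H50.Hit

set_option autoImplicit false

open Finset Pool.Agent.H50.Hit

namespace Pool.Agent.Results.MP_e25d14_pr.Counter

/-- symmetric conductances on a path, growing geometrically, all other pairs have weight one -/
def c (t : ℕ) (K : ℝ) (u v : Fin (t + 1)) : ℝ :=
  if (v : ℕ) = u + 1 then K ^ (v : ℕ) else if (u : ℕ) = v + 1 then K ^ (u : ℕ) else 1

theorem c_symm (t : ℕ) (K : ℝ) (u v : Fin (t + 1)) : c t K u v = c t K v u := by
  unfold c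
  split_ifs <;> first | rfl | omega

theorem one_le_c (t : ℕ) {K : ℝ} (hK : 1 ≤ K) (u v : Fin (t + 1)) : 1 ≤ c t K u v := by
  unfold c
  split_ifs
  exacts [one_le_pow₀ hK, one_le_pow₀ hK, le_rfl]

theorem c_le (t : ℕ) {K : ℝ} (hK : 1 ≤ K) (u v : Fin (t + 1)) : c t K u v ≤ K ^ t := by
  unfold c
  split_ifs
  exacts [pow_le_pow_right₀ hK (by omega), pow_le_pow_right₀ hK (by omega), one_le_pow₀ hK]

theorem row_le (t : ℕ) {K : ℝ} (hK : 1 ≤ K) (u : Fin (t + 1)) :
    ∑ v, c t K u v ≤ K ^ ((u : ℕ) + 1) + (t + 1) * K ^ (u : ℕ) := by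
  have h1 : ∀ v, c t K u v ≤ (if (v : ℕ) = u + 1 then K ^ ((u : ℕ) + 1) else 0) + K ^ (u : ℕ) := by
    intro v
    have h0 : (1 : ℝ) ≤ K ^ (u : ℕ) := one_le_pow₀ hK
    unfold c
    split_ifs with h h'
    · rw [h]; linarith
    · linarith
    · linarith
  refine (sum_le_sum fun v _ => h1 v).trans ?_
  rw [sum_add_distrib]
  have h2 : ∑ v : Fin (t + 1), (if (v : ℕ) = u + 1 then K ^ ((u : ℕ) + 1) else 0) ≤
      K ^ ((u : ℕ) + 1) := by
    rw [← sum_filter, sum_const, nsmul_eq_mul]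
    have : (univ.filter fun v : Fin (t + 1) => (v : ℕ) = u + 1).card ≤ 1 :=
      card_le_one.2 fun a ha b hb => by
        simp only [mem_filter, mem_univ, true_and] at ha hb
        exact Fin.ext (ha.trans hb.symm)
    have h3 : ((univ.filter fun v : Fin (t + 1) => (v : ℕ) = u + 1).card : ℝ) ≤ 1 := by
      exact_mod_cast this
    have h4 : (0 : ℝ) ≤ K ^ ((u : ℕ) + 1) := by positivity
    nlinarith
  simp only [sum_const, card_univ, Fintype.card_fin, nsmul_eq_mul]
  push_cast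
  linarith

theorem third_le (t : ℕ) (ht : 1 ≤ t) : (1 : ℝ) / 3 ≤ ((t : ℝ) / (t + 1)) ^ t := by
  have ht' : (0 : ℝ) < t := by exact_mod_cast ht
  have h1 : (1 + 1 / (t : ℝ)) ^ t ≤ Real.exp 1 := by
    have := Real.add_one_le_exp (1 / (t : ℝ))
    calc (1 + 1 / (t : ℝ)) ^ t ≤ (Real.exp (1 / t)) ^ t :=
          pow_le_pow_left₀ (by positivity) (by linarith) t
      _ = Real.exp 1 := by rw [← Real.exp_nat_mul]; congr 1; field_simp
  have h2 : Real.exp 1 < 3 := Real.exp_one_lt_d9.trans (by norm_num)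
  have h3 : ((t : ℝ) / (t + 1)) ^ t * (1 + 1 / (t : ℝ)) ^ t = 1 := by
    rw [← mul_pow]
    have : (t : ℝ) / (t + 1) * (1 + 1 / t) = 1 := by field_simp
    rw [this, one_pow]
  have h4 : (0 : ℝ) ≤ ((t : ℝ) / (t + 1)) ^ t := by positivity
  nlinarith

/-- For every `C` there is a finite reversible chain with all transition probabilities positive,
states `x, y` and a time `t ≥ 1` with `P_x(τ(y) = t) > (C/t) √(max(1, log(1/π(x))))`. -/
theorem result (C : ℝ) : ∃ (n : ℕ) (P : Fin n → Fin n → ℝ) (π : Fin n → ℝ) (x y : Fin n) (t : ℕ),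
    Stoch P ∧ (∀ u v, 0 < P u v) ∧ (∀ u, 0 < π u) ∧ ∑ u, π u = 1 ∧
    (∀ v, ∑ u, π u * P u v = π v) ∧ (∀ u v, π u * P u v = π v * P v u) ∧ 1 ≤ t ∧
    C / t * √(max 1 (Real.log (1 / π x))) < hit P x y t := by
  obtain ⟨s, hs⟩ := exists_nat_gt (18 * |C| + 2)
  have hC : 0 ≤ |C| := abs_nonneg C
  have hs2 : (2 : ℝ) ≤ s := by linarith
  have hs2' : 2 ≤ s := by exact_mod_cast hs2
  have h16 : 16 ≤ s ^ 4 := by
    calc 16 = 2 ^ 4 := by norm_num
      _ ≤ s ^ 4 := Nat.pow_le_pow_left hs2' 4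
  obtain ⟨t, ht⟩ : ∃ t, s ^ 4 = t + 1 := ⟨s ^ 4 - 1, by omega⟩
  have ht1 : 15 ≤ t := by omega
  have htr : (15 : ℝ) ≤ t := by exact_mod_cast ht1
  have hts : (t : ℝ) + 1 = (s : ℝ) ^ 4 := by exact_mod_cast ht.symm
  set K : ℝ := t * (t + 1) with hKdef
  have hK : 1 ≤ K := by nlinarith
  set r : Fin (t + 1) → ℝ := fun u => ∑ v, c t K u v with hr
  have hcpos : ∀ u v, 0 < c t K u v := fun u v => one_pos.trans_le (one_le_c t hK u v)
  have hr1 : ∀ u, 1 ≤ r u := fun u =>
    (one_le_c t hK u u).trans (single_le_sum (f := fun v => c t K u v)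
      (fun v _ => (hcpos u v).le) (mem_univ u))
  have hrpos : ∀ u, 0 < r u := fun u => one_pos.trans_le (hr1 u)
  set Z : ℝ := ∑ u, r u with hZ
  have hZpos : 0 < Z := sum_pos (fun u _ => hrpos u) univ_nonempty
  have hrev : ∀ u v, r u / Z * (c t K u v / r u) = c t K u v / Z := fun u v => by
    have := (hrpos u).ne'
    field_simp
  have hPpos : ∀ u v, 0 < c t K u v / r u := fun u v => div_pos (hcpos u v) (hrpos u)
  refine ⟨t + 1, fun u v => c t K u v / r u, fun u => r u / Z, 0, Fin.last t, t,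
    ⟨fun u v => (hPpos u v).le, fun u => ?_⟩, hPpos, fun u => div_pos (hrpos u) hZpos, ?_,
    fun v => ?_, fun u v => ?_, by omega, ?_⟩
  · rw [← sum_div]; exact div_self (hrpos u).ne'
  · rw [← sum_div]; exact div_self hZpos.ne'
  · simp only [hrev]
    rw [← sum_div]
    congr 1
    exact sum_congr rfl fun u _ => c_symm t K u v
  · rw [hrev, hrev, c_symm]
  · have hpath := path_le_hit (P := fun u v => c t K u v / r u) (fun u v => (hPpos u v).le) t id
      (fun i => (Fin.castSucc_lt_last i).ne)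
    have hstep : ∀ i : Fin t, (t : ℝ) / (t + 1) ≤ c t K i.castSucc i.succ / r i.castSucc := by
      intro i
      have h1 : c t K i.castSucc i.succ = K ^ ((i : ℕ) + 1) := by simp [c]
      have h2 := row_le t hK i.castSucc
      rw [Fin.val_castSucc] at h2
      rw [h1, div_le_div_iff₀ (by positivity) (hrpos _)]
      have h3 : (0 : ℝ) < K ^ (i : ℕ) := by positivity
      calc (t : ℝ) * r i.castSucc ≤ t * (K ^ ((i : ℕ) + 1) + (t + 1) * K ^ (i : ℕ)) :=
            mul_le_mul_of_nonneg_left h2 (by positivity)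
        _ = K ^ ((i : ℕ) + 1) * (t + 1) := by rw [pow_succ, hKdef]; ring
    have hlow : (1 : ℝ) / 3 ≤ hit (fun u v => c t K u v / r u) 0 (Fin.last t) t := by
      refine (third_le t (by omega)).trans (le_trans ?_ hpath)
      calc ((t : ℝ) / (t + 1)) ^ t = ∏ _i : Fin t, (t : ℝ) / (t + 1) := by simp [div_pow]
        _ ≤ _ := prod_le_prod (fun i _ => by positivity) fun i _ => hstep i
    refine lt_of_lt_of_le ?_ hlow
    have hZle : Z ≤ ((s : ℝ) ^ 8) ^ (t + 1) := by
      have h1 : Z ≤ (t + 1) * ((t + 1) * K ^ t) := by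
        calc Z ≤ ∑ _u : Fin (t + 1), ∑ _v : Fin (t + 1), K ^ t :=
              sum_le_sum fun u _ => sum_le_sum fun v _ => c_le t hK u v
          _ = _ := by simp
      have h2 : K ≤ (s : ℝ) ^ 8 := by
        have : (s : ℝ) ^ 8 = (t + 1) * (t + 1) := by rw [hts]; ring
        rw [this, hKdef]; nlinarith
      have h3 : K ^ t ≤ ((s : ℝ) ^ 8) ^ t := pow_le_pow_left₀ (by linarith) h2 t
      calc Z ≤ (t + 1) * ((t + 1) * K ^ t) := h1
        _ = (s : ℝ) ^ 8 * K ^ t := by rw [hts]; ring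
        _ ≤ (s : ℝ) ^ 8 * ((s : ℝ) ^ 8) ^ t := mul_le_mul_of_nonneg_left h3 (by positivity)
        _ = _ := by rw [pow_succ]; ring
    have hlog : Real.log (1 / (r 0 / Z)) ≤ 8 * (s : ℝ) ^ 5 := by
      have h1 : 1 / (r 0 / Z) ≤ Z := by
        rw [one_div_div, div_le_iff₀ (hrpos 0)]
        nlinarith [hr1 0]
      have h2 : Real.log s ≤ s := (Real.log_le_sub_one_of_pos (by linarith)).trans (by linarith)
      calc Real.log (1 / (r 0 / Z)) ≤ Real.log (((s : ℝ) ^ 8) ^ (t + 1)) :=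
            Real.log_le_log (by have := hrpos 0; positivity) (h1.trans hZle)
        _ = (s : ℝ) ^ 4 * (8 * Real.log s) := by
            rw [Real.log_pow, Real.log_pow]; push_cast; rw [hts]
        _ ≤ (s : ℝ) ^ 4 * (8 * s) := by gcongr
        _ = _ := by ring
    have hs5 : (1 : ℝ) ≤ (s : ℝ) ^ 5 := one_le_pow₀ (by linarith)
    have hsq : √(max 1 (Real.log (1 / (r 0 / Z)))) ≤ 3 * (s : ℝ) ^ 3 := by
      rw [Real.sqrt_le_left (by positivity)]
      have : (3 * (s : ℝ) ^ 3) ^ 2 = 9 * (s : ℝ) ^ 5 * s := by ring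
      rw [this]
      apply max_le <;> nlinarith
    have htpos : (0 : ℝ) < t := by linarith
    have hs3 : (0 : ℝ) < (s : ℝ) ^ 3 := by positivity
    calc C / t * √(max 1 (Real.log (1 / (r 0 / Z)))) ≤
          |C| / t * √(max 1 (Real.log (1 / (r 0 / Z)))) := by
          gcongr; exact le_abs_self C
      _ ≤ |C| / t * (3 * (s : ℝ) ^ 3) := by gcongr
      _ < 1 / 3 := by
          rw [div_mul_eq_mul_div, div_lt_div_iff₀ htpos (by norm_num)]
          have h1 : (s : ℝ) ^ 4 = s * (s : ℝ) ^ 3 := by ring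
          nlinarith

end Pool.Agent.Results.MP_e25d14_pr.Counter
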